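import Pool.Graph.R_seed8.Helper29.RotS5

/-!
# Averaging identities for any number of generators
-/

set_option autoImplicit false

open CircleDeg1Lift Set Pool.Agent.Helper29.Rot

namespace Pool.Agent.H50.SL

variable {ι : Type} [Fintype ι] [DecidableEq ι]

/-- the sum of the signs of the letters of class `i` -/
def P (ℓ : ℕ) (c : ℕ → ι) (σ : ℕ → ℤ) (i : ι) : ℝ :=
  ∑ k ∈ Finset.range ℓ, if c k = i then (σ k : ℝ) else 0

theorem avg_identity_n (ℓ : ℕ) (hℓ : 0 < ℓ) (A : ι → G)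
    (c : ℕ → ι) (σ : ℕ → ℤ) (hσ : ∀ k, σ k = 1 ∨ σ k = -1) (g : ℕ → G)
    (hg : ∀ k, g k = A (c k) ^ (σ k))
    (f : ℕ → G) (t κ : ℝ)
    (h1 : ∀ k, k + 1 < ℓ → ∀ x : ℝ, f (k + 1) (g k x) = f k x)
    (h2 : ∀ x : ℝ, |f 0 (g (ℓ - 1) x) - f (ℓ - 1) x - t| ≤ κ)
    (cst : ι → ℝ) (η : ℝ)
    (hD : ∀ i, ∀ x : ℝ, |∑ k ∈ Finset.range ℓ,
      ((expo ℓ (fun j => if c j = i then 1 else 0) k : ℤ) : ℝ) * f k x - cst i| ≤ η) :
    |t - ∑ i, P ℓ c σ i * translationNumber (A i : CircleDeg1Lift)| ≤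
      2 * (Fintype.card ι * η) + κ := by
  obtain ⟨m, rfl⟩ : ∃ m, ℓ = m + 1 := ⟨ℓ - 1, by omega⟩
  simp only [Nat.add_sub_cancel] at h2
  -- cyclic shift
  let Fc : ℕ → G := fun k => if k < m then f (k + 1) else f 0
  have hFc1 : ∀ k, k < m → Fc k = f (k + 1) := fun k hk => by simp [Fc, hk]
  have hFc2 : Fc m = f 0 := by simp [Fc]
  have hκ : 0 ≤ κ := le_trans (abs_nonneg _) (h2 0)
  -- rearrangement of D
  have hDeq : ∀ i, ∀ x : ℝ, ∑ k ∈ Finset.range (m + 1),
      ((expo (m + 1) (fun j => if c j = i then 1 else 0) k : ℤ) : ℝ) * f k x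
      = ∑ k ∈ Finset.range (m + 1), (if c k = i then (1 : ℝ) else 0) * (Fc k x - f k x) := by
    intro i x
    have e1 : ∀ k, ((expo (m + 1) (fun j => if c j = i then 1 else 0) k : ℤ) : ℝ) * f k x
        = (if k = 0 then (if c m = i then (1 : ℝ) else 0)
            else (if c (k - 1) = i then (1 : ℝ) else 0)) * f k x
          - (if c k = i then (1 : ℝ) else 0) * f k x := by
      intro k
      simp only [expo, Nat.add_sub_cancel]
      push_cast
      rw [sub_mul]
    rw [Finset.sum_congr rfl fun k _ => e1 k, Finset.sum_sub_distrib]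
    simp only [mul_sub]
    rw [Finset.sum_sub_distrib]
    congr 1
    rw [Finset.sum_range_succ', Finset.sum_range_succ, hFc2]
    simp only [if_true, Nat.add_sub_cancel, Nat.add_eq_zero_iff, one_ne_zero, and_false, if_false]
    congr 1
    refine Finset.sum_congr rfl fun k hk => ?_
    rw [hFc1 k (Finset.mem_range.1 hk)]
  have hcyc : ∀ x : ℝ, ∑ k ∈ Finset.range (m + 1), (Fc k x - f k x) = 0 := by
    intro x
    rw [Finset.sum_sub_distrib, Finset.sum_range_succ, Finset.sum_range_succ' (fun k => (f k : CircleDeg1Lift) x),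
      hFc2]
    rw [Finset.sum_congr rfl fun k hk => by rw [hFc1 k (Finset.mem_range.1 hk)]]
    ring
  -- the shift relation
  have hshift : ∀ k, k < m → ∀ x : ℝ, Fc k x - f k x = Fc k x - Fc k (g k x) := by
    intro k hk x
    rw [hFc1 k hk, h1 k (by omega) x]
  have hshift2 : ∀ x : ℝ, |(Fc m x - f m x) - ((Fc m x - Fc m (g m x)) + t)| ≤ κ := by
    intro x
    rw [hFc2]
    have := h2 x
    have e : (f 0 x - f m x : ℝ) - ((f 0 x - f 0 (g m x)) + t) = f 0 (g m x) - f m x - t := by ring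
    rw [e]; exact this
  -- general comparison: for any weights w ∈ {0,1}
  have hcomp : ∀ (w : ℕ → ℝ), (∀ k, w k = 0 ∨ w k = 1) → ∀ x : ℝ,
      |∑ k ∈ Finset.range (m + 1), w k * (Fc k x - f k x)
        - (∑ k ∈ Finset.range (m + 1), w k * (Fc k x - Fc k (g k x)) + w m * t)| ≤ w m * κ := by
    intro w hw x
    rw [Finset.sum_range_succ, Finset.sum_range_succ]
    rw [Finset.sum_congr rfl fun k hk => by rw [hshift k (Finset.mem_range.1 hk) x]]
    have e : ∀ S a b : ℝ, S + w m * a - (S + w m * b + w m * t) = w m * (a - (b + t)) := by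
      intro S a b; ring
    rw [e, abs_mul]
    have hwm : 0 ≤ w m := by rcases hw m with h | h <;> rw [h] <;> norm_num
    rw [abs_of_nonneg hwm]
    exact mul_le_mul_of_nonneg_left (hshift2 x) hwm
  -- the part of class `i`
  have hAp : ∀ i, |(-(P (m + 1) c σ i * translationNumber (A i : CircleDeg1Lift)))
      - (cst i - (if c m = i then (1 : ℝ) else 0) * t)| ≤
        η + (if c m = i then (1 : ℝ) else 0) * κ := by
    intro i
    have hP : P (m + 1) c σ i =
        ∑ k ∈ (Finset.range (m + 1)).filter (fun k => c k = i), (σ k : ℝ) := by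
      rw [P, Finset.sum_filter]
    rw [hP]
    apply avg_lim (A i) _ rfl _ Fc σ hσ
    intro x
    have hc := hcomp (fun k => if c k = i then (1 : ℝ) else 0)
      (fun k => by by_cases h : c k = i <;> simp [h]) x
    have hd := hD i x
    rw [hDeq i x] at hd
    have e : ∑ k ∈ (Finset.range (m + 1)).filter (fun k => c k = i),
        ((Fc k : CircleDeg1Lift) x - (Fc k : CircleDeg1Lift) ((A i ^ σ k : G) x))
        = ∑ k ∈ Finset.range (m + 1), (if c k = i then (1 : ℝ) else 0) * (Fc k x - Fc k (g k x)) := by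
      rw [Finset.sum_filter]
      refine Finset.sum_congr rfl fun k _ => ?_
      by_cases h : c k = i
      · rw [hg k, h]; simp
      · simp [h]
    rw [e]
    rw [abs_le] at hc hd ⊢
    constructor <;> linarith [hc.1, hc.2, hd.1, hd.2]
  have hone : ∑ i, (if c m = i then (1 : ℝ) else 0) = 1 := by simp
  -- the sum of the constants is small
  have hcs : |∑ i, cst i| ≤ Fintype.card ι * η := by
    have h3 : ∑ i, (∑ k ∈ Finset.range (m + 1),
        (if c k = i then (1 : ℝ) else 0) * (Fc k (0 : ℝ) - f k (0 : ℝ))) = 0 := by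
      rw [Finset.sum_comm]
      refine Eq.trans (Finset.sum_congr rfl fun k _ => ?_) (hcyc 0)
      rw [← Finset.sum_mul]
      simp
    have h4 : ∑ i, cst i = -∑ i, ((∑ k ∈ Finset.range (m + 1),
        (if c k = i then (1 : ℝ) else 0) * (Fc k (0 : ℝ) - f k (0 : ℝ))) - cst i) := by
      rw [Finset.sum_sub_distrib, h3]
      ring
    rw [h4, abs_neg]
    calc _ ≤ ∑ i, |(∑ k ∈ Finset.range (m + 1),
        (if c k = i then (1 : ℝ) else 0) * (Fc k (0 : ℝ) - f k (0 : ℝ))) - cst i| :=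
          Finset.abs_sum_le_sum_abs _ _
      _ ≤ ∑ i : ι, η := Finset.sum_le_sum fun i _ => by
          have := hD i 0
          rwa [hDeq i 0] at this
      _ = _ := by simp
  have hsum : |∑ i, ((-(P (m + 1) c σ i * translationNumber (A i : CircleDeg1Lift)))
      - (cst i - (if c m = i then (1 : ℝ) else 0) * t))| ≤ Fintype.card ι * η + κ := by
    calc _ ≤ ∑ i, |(-(P (m + 1) c σ i * translationNumber (A i : CircleDeg1Lift)))
      - (cst i - (if c m = i then (1 : ℝ) else 0) * t)| := Finset.abs_sum_le_sum_abs _ _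
      _ ≤ ∑ i, (η + (if c m = i then (1 : ℝ) else 0) * κ) := Finset.sum_le_sum fun i _ => hAp i
      _ = _ := by
          rw [Finset.sum_add_distrib, ← Finset.sum_mul, hone]
          simp
  have e5 : ∑ i, ((-(P (m + 1) c σ i * translationNumber (A i : CircleDeg1Lift)))
      - (cst i - (if c m = i then (1 : ℝ) else 0) * t)) =
      (t - ∑ i, P (m + 1) c σ i * translationNumber (A i : CircleDeg1Lift)) - ∑ i, cst i := by
    rw [Finset.sum_sub_distrib, Finset.sum_sub_distrib, ← Finset.sum_mul, hone,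
      Finset.sum_neg_distrib]
    ring
  rw [e5] at hsum
  rw [abs_le] at hsum hcs ⊢
  constructor <;> linarith [hsum.1, hsum.2, hcs.1, hcs.2]

theorem limit_of_const_n (θ : ℝ) (r : ι → ℝ) (ℓ : ℕ) (hℓ : 0 < ℓ) (A : ℕ → ι → G)
    (hA : ∀ (n : ℕ) (i : ι), |translationNumber (A n i : CircleDeg1Lift) - r i| ≤ 1 / ((n : ℝ) + 1))
    (c : ℕ → ι) (σ : ℕ → ℤ) (hσ : ∀ k, σ k = 1 ∨ σ k = -1) (g : ℕ → ℕ → G)
    (hg : ∀ n k, g n k = A n (c k) ^ (σ k))
    (f : ℕ → ℕ → G) (t : ℕ → ℝ) (F : ℕ → ℝ → ℝ)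
    (h1 : ∀ n k, k + 1 < ℓ → ∀ x : ℝ, f n (k + 1) (g n k x) = f n k x)
    (h2 : ∀ n, ∀ x : ℝ, |f n 0 (g n (ℓ - 1) x) - f n (ℓ - 1) x - t n| ≤ 1 / ((n : ℝ) + 1))
    (ht : ∀ n : ℕ, θ - 1 / ((n : ℝ) + 1) ≤ t n) (ht' : ∀ n : ℕ, t n ≤ θ)
    (hF : ∀ η : ℝ, 0 < η → ∀ n₀ : ℕ, ∃ n, n₀ ≤ n ∧ ∀ k, k < ℓ → ∀ x : ℝ,
      |f n k x - F k x| ≤ η)
    (hc : ∀ i, ∀ x y, ∑ k ∈ Finset.range ℓ,
        ((expo ℓ (fun j => if c j = i then 1 else 0) k : ℤ) : ℝ) * F k x
      = ∑ k ∈ Finset.range ℓ,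
        ((expo ℓ (fun j => if c j = i then 1 else 0) k : ℤ) : ℝ) * F k y) :
    θ = ∑ i, P ℓ c σ i * r i := by
  set cst : ι → ℝ := fun i => ∑ k ∈ Finset.range ℓ,
        ((expo ℓ (fun j => if c j = i then 1 else 0) k : ℤ) : ℝ) * F k 0 with hcst
  set W : ℝ := ∑ i, ∑ k ∈ Finset.range ℓ,
    |((expo ℓ (fun j => if c j = i then 1 else 0) k : ℤ) : ℝ)| with hW
  have hW0 : 0 ≤ W := Finset.sum_nonneg fun _ _ => Finset.sum_nonneg fun _ _ => abs_nonneg _
  have hWi : ∀ i, ∑ k ∈ Finset.range ℓ,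
      |((expo ℓ (fun j => if c j = i then 1 else 0) k : ℤ) : ℝ)| ≤ W := by
    intro i
    exact Finset.single_le_sum (f := fun i => ∑ k ∈ Finset.range ℓ,
      |((expo ℓ (fun j => if c j = i then 1 else 0) k : ℤ) : ℝ)|)
      (fun _ _ => Finset.sum_nonneg fun _ _ => abs_nonneg _) (Finset.mem_univ i)
  set S : ℝ := ∑ i, |P ℓ c σ i| with hS
  have hS0 : 0 ≤ S := Finset.sum_nonneg fun _ _ => abs_nonneg _
  set Nc : ℝ := (Fintype.card ι : ℝ) with hNc
  have hNc0 : 0 ≤ Nc := Nat.cast_nonneg _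
  have key : ∀ ε : ℝ, 0 < ε → |θ - ∑ i, P ℓ c σ i * r i| ≤ ε := by
    intro ε hε
    obtain ⟨n₀, hn₀⟩ := exists_nat_gt ((2 + S) / (ε / 2))
    have hη : 0 < ε / (4 * ((Nc + 1) * (W + 1))) := by positivity
    obtain ⟨n, hn, hfn⟩ := hF _ hη n₀
    have hD : ∀ i, ∀ x : ℝ, |∑ k ∈ Finset.range ℓ,
      ((expo ℓ (fun j => if c j = i then 1 else 0) k : ℤ) : ℝ) * f n k x - cst i| ≤
        W * (ε / (4 * ((Nc + 1) * (W + 1)))) := by
      intro i x
      rw [hcst]
      simp only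
      rw [← hc i x 0, ← Finset.sum_sub_distrib]
      refine le_trans (Finset.abs_sum_le_sum_abs _ _) ?_
      refine le_trans ?_ (mul_le_mul_of_nonneg_right (hWi i) hη.le)
      rw [Finset.sum_mul]
      refine Finset.sum_le_sum fun k hk => ?_
      rw [← mul_sub, abs_mul]
      exact mul_le_mul_of_nonneg_left (hfn k (Finset.mem_range.1 hk) x) (abs_nonneg _)
    have hT := avg_identity_n ℓ hℓ (A n) c σ hσ (g n) (hg n) (f n) (t n)
      (1 / ((n : ℝ) + 1)) (h1 n) (h2 n) cst _ hD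
    rw [← hNc] at hT
    have hP : |∑ i, P ℓ c σ i * (translationNumber (A n i : CircleDeg1Lift) - r i)| ≤
        S * (1 / ((n : ℝ) + 1)) := by
      refine le_trans (Finset.abs_sum_le_sum_abs _ _) ?_
      rw [hS, Finset.sum_mul]
      refine Finset.sum_le_sum fun i _ => ?_
      rw [abs_mul]
      exact mul_le_mul_of_nonneg_left (hA n i) (abs_nonneg _)
    have htn : |θ - t n| ≤ 1 / ((n : ℝ) + 1) := by
      rw [abs_le]; constructor
      · have : (0 : ℝ) ≤ 1 / ((n : ℝ) + 1) := by positivity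
        linarith [ht' n]
      · linarith [ht n]
    have hWb : 2 * (Nc * (W * (ε / (4 * ((Nc + 1) * (W + 1)))))) ≤ ε / 2 := by
      have e1 : 2 * (Nc * (W * (ε / (4 * ((Nc + 1) * (W + 1)))))) =
          (ε / 2) * ((Nc / (Nc + 1)) * (W / (W + 1))) := by field_simp; ring
      rw [e1]
      have a1 : Nc / (Nc + 1) ≤ 1 := by rw [div_le_one (by linarith)]; linarith
      have a2 : W / (W + 1) ≤ 1 := by rw [div_le_one (by linarith)]; linarith
      have a3 : 0 ≤ W / (W + 1) := by positivity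
      have a4 : Nc / (Nc + 1) * (W / (W + 1)) ≤ 1 := mul_le_one₀ a1 a3 a2
      nlinarith
    have hsmall : (2 + S) * (1 / ((n : ℝ) + 1)) ≤ ε / 2 := by
      rw [div_lt_iff₀ (by linarith)] at hn₀
      rw [mul_one_div, div_le_iff₀ (by positivity)]
      have : (n₀ : ℝ) ≤ n := by exact_mod_cast hn
      nlinarith
    have e : θ - ∑ i, P ℓ c σ i * r i = (θ - t n) +
        (t n - ∑ i, P ℓ c σ i * translationNumber (A n i : CircleDeg1Lift)) +
        ∑ i, P ℓ c σ i * (translationNumber (A n i : CircleDeg1Lift) - r i) := by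
      have : ∑ i, P ℓ c σ i * (translationNumber (A n i : CircleDeg1Lift) - r i) =
          ∑ i, P ℓ c σ i * translationNumber (A n i : CircleDeg1Lift) - ∑ i, P ℓ c σ i * r i := by
        rw [← Finset.sum_sub_distrib]
        exact Finset.sum_congr rfl fun i _ => by ring
      rw [this]
      ring
    rw [e]
    rw [abs_le] at hP htn hT ⊢
    constructor <;> nlinarith [hP.1, hP.2, htn.1, htn.2, hT.1, hT.2]
  have h0 : |θ - ∑ i, P ℓ c σ i * r i| ≤ 0 := le_of_forall_pos_le_add (by simpa using key)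
  have := abs_nonpos_iff.1 h0
  linarith

end Pool.Agent.H50.SL
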