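import Pool.Agent.H50.SL.Avg

/-!
# The core of the slippery theorem for any number of generators
-/

set_option autoImplicit false

open CircleDeg1Lift Set Pool.Agent.Helper29.Rot

namespace Pool.Agent.H50.SL

variable {ι : Type} [Fintype ι] [DecidableEq ι]

theorem slip_core_n (ℓ : ℕ) (hℓ : 0 < ℓ) (c : ℕ → ι) (σ : ℕ → ℤ)
    (hσ : ∀ k, σ k = 1 ∨ σ k = -1) (r : ι → ℝ) (θ : ℝ)
    (happ : ∀ e : ℝ, 0 < e → ∃ A : ι → G,
      (∀ i, |translationNumber (A i : CircleDeg1Lift) - r i| ≤ e) ∧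
      θ - e < translationNumber (prodSeq (fun k => A (c k) ^ σ k) ℓ : CircleDeg1Lift) ∧
      ∀ B : ι → G, (∀ i, IsConj (A i) (B i)) →
        translationNumber (prodSeq (fun k => B (c k) ^ σ k) ℓ : CircleDeg1Lift) < θ) :
    θ = ∑ i, P ℓ c σ i * r i := by
  classical
  have hex : ∀ n : ℕ, ∃ A : ι → G,
      (∀ i, |translationNumber (A i : CircleDeg1Lift) - r i| ≤ 1 / ((n : ℝ) + 1)) ∧
      θ - 1 / ((n : ℝ) + 1) < translationNumber (prodSeq (fun k => A (c k) ^ σ k) ℓ : CircleDeg1Lift) ∧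
      ∀ B : ι → G, (∀ i, IsConj (A i) (B i)) →
        translationNumber (prodSeq (fun k => B (c k) ^ σ k) ℓ : CircleDeg1Lift) < θ :=
    fun n => happ _ (by positivity)
  choose A' hA' ht' hlt using hex
  set Cst : ℝ := ∑ i, |r i| + 1 with hCst
  have hlev : ∀ n : ℕ, ∃ (ψ : G) (f : ℕ → G),
      (∀ x : ℝ, ∑ k ∈ Finset.range ℓ, f k x = ℓ * x) ∧
      (∀ k, k + 1 < ℓ → ∀ x : ℝ,
        f (k + 1) ((ψ * (A' n (c k) ^ σ k) * ψ⁻¹ : G) x) = f k x) ∧
      (∀ x : ℝ, |f 0 ((ψ * (A' n (c (ℓ - 1)) ^ σ (ℓ - 1)) * ψ⁻¹ : G) x) - f (ℓ - 1) x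
        - translationNumber (prodSeq (fun k => A' n (c k) ^ σ k) ℓ : CircleDeg1Lift)|
          ≤ 1 / ((n + 1 : ℕ) : ℝ)) ∧
      (∀ k, k < ℓ → ∀ x : ℝ, |f k x - x| ≤ ℓ * (Cst + 3)) := by
    intro n
    refine level_functions ℓ (n + 1) hℓ (Nat.succ_pos n) (fun k => A' n (c k) ^ σ k) Cst ?_
    intro k _
    have p3 : 1 / ((n : ℝ) + 1) ≤ 1 := by
      rw [div_le_one (by positivity)]
      linarith [Nat.cast_nonneg (α := ℝ) n]
    have hr : ∀ i, |translationNumber (A' n i : CircleDeg1Lift)| ≤ Cst := by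
      intro i
      have h0 : |r i| ≤ ∑ i, |r i| :=
        Finset.single_le_sum (f := fun i => |r i|) (fun _ _ => abs_nonneg _) (Finset.mem_univ i)
      have := neg_abs_le (r i)
      have := le_abs_self (r i)
      have h5 := abs_le.1 (hA' n i)
      rw [abs_le]
      constructor <;> linarith [h5.1, h5.2]
    show |translationNumber ((A' n (c k) ^ σ k : G) : CircleDeg1Lift)| ≤ Cst
    rw [translationNumber_zpow]
    rcases hσ k with h | h
    · rw [h]; push_cast; rw [one_mul]; exact hr _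
    · rw [h]; push_cast; rw [neg_mul, one_mul, abs_neg]; exact hr _
  choose ψ f hf1 hf2 hf3 hf4 using hlev
  obtain ⟨F, hF1, hF2, hF3, hF4⟩ := limit_functions ℓ (ℓ * (Cst + 3))
    (fun n k x => f n k x) (fun n k _ => (f n k : CircleDeg1Lift).monotone)
    (fun n k _ x => (f n k : CircleDeg1Lift).map_add_one x)
    (fun n k hk x y => j16444_lip (hf1 n) hk x y) (fun n k hk x => hf4 n k hk x)
  have hcj : ∀ u A : G, translationNumber ((u * A * u⁻¹ : G) : CircleDeg1Lift) =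
      translationNumber (A : CircleDeg1Lift) := by
    intro u A
    have := translationNumber_conj_eq u (A : CircleDeg1Lift)
    rw [← this]
    rfl
  -- the conjugated generators
  obtain ⟨B, hB⟩ : ∃ B : ℕ → ι → G, B = fun n i => ψ n * A' n i * (ψ n)⁻¹ := ⟨_, rfl⟩
  have hBτ : ∀ n i, translationNumber (B n i : CircleDeg1Lift) =
      translationNumber (A' n i : CircleDeg1Lift) := by
    intro n i; rw [hB]; exact hcj _ _
  obtain ⟨g, hg⟩ : ∃ g : ℕ → ℕ → G, g = fun n k => B n (c k) ^ σ k := ⟨_, rfl⟩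
  have hg' : ∀ n k, g n k = ψ n * (A' n (c k) ^ σ k) * (ψ n)⁻¹ := by
    intro n k
    rw [hg, hB]
    simp only
    rw [conj_zpow]
  have hgB : ∀ n k, g n k = B n (c k) ^ σ k := by intro n k; rw [hg]
  obtain ⟨t, ht⟩ : ∃ t : ℕ → ℝ, t = fun n =>
    translationNumber (prodSeq (fun k => A' n (c k) ^ σ k) ℓ : CircleDeg1Lift) := ⟨_, rfl⟩
  have h1 : ∀ n k, k + 1 < ℓ → ∀ x : ℝ, f n (k + 1) (g n k x) = f n k x := by
    intro n k hk x
    rw [hg']
    exact hf2 n k hk x
  have h2 : ∀ n, ∀ x : ℝ, |f n 0 (g n (ℓ - 1) x) - f n (ℓ - 1) x - t n| ≤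
      1 / ((n : ℝ) + 1) := by
    intro n x
    rw [hg', ht]
    have := hf3 n x
    push_cast at this
    exact this
  have htl : ∀ n : ℕ, θ - 1 / ((n : ℝ) + 1) ≤ t n := by
    intro n
    rw [ht]
    exact (ht' n).le
  have htu : ∀ n : ℕ, t n ≤ θ := by
    intro n
    rw [ht]
    exact (hlt n _ fun i => IsConj.refl _).le
  have hle : ∀ (i : ι) (n : ℕ) (u : G), translationNumber
      (prodSeq (fun k => u ^ ((fun j => if c j = i then (1:ℤ) else 0) k) * g n k *
        u ^ (-(fun j => if c j = i then (1:ℤ) else 0) k)) ℓ : CircleDeg1Lift) < θ := by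
    intro i n u
    have h3 := hlt n (fun j => if j = i then u * B n j * u⁻¹ else B n j) (by
      intro j
      have hcB : IsConj (A' n j) (B n j) := by
        rw [hB]
        exact isConj_iff.2 ⟨ψ n, rfl⟩
      by_cases hji : j = i
      · simp only [if_pos hji]
        exact hcB.trans (isConj_iff.2 ⟨u, rfl⟩)
      · simp only [if_neg hji]
        exact hcB)
    have h4 : prodSeq (fun k => u ^ ((fun j => if c j = i then (1:ℤ) else 0) k) * g n k *
        u ^ (-(fun j => if c j = i then (1:ℤ) else 0) k)) ℓ =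
        prodSeq (fun k => (fun j => if j = i then u * B n j * u⁻¹ else B n j) (c k) ^ σ k) ℓ := by
      refine j16444_congr fun k _ => ?_
      rw [hgB]
      simp only
      by_cases hk : c k = i
      · rw [if_pos hk, if_pos hk, zpow_one, zpow_neg, zpow_one, conj_zpow (a := u)]
      · rw [if_neg hk, if_neg hk, zpow_zero, neg_zero, zpow_zero, one_mul, mul_one]
    rw [h4]
    exact h3
  have hconst : ∀ i, ∀ x y, ∑ k ∈ Finset.range ℓ,
        ((expo ℓ (fun j => if c j = i then 1 else 0) k : ℤ) : ℝ) * F k x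
      = ∑ k ∈ Finset.range ℓ,
        ((expo ℓ (fun j => if c j = i then 1 else 0) k : ℤ) : ℝ) * F k y := by
    intro i
    have hnc := nc_of_limit_S θ ℓ hℓ (fun j => if c j = i then (1:ℤ) else 0) g f t F h1 h2 htl hF1 hF2
      hF3 hF4 (hle i)
    have hsys : SysS θ ℓ (expo ℓ (fun j => if c j = i then (1:ℤ) else 0)) F :=
      ⟨hℓ, hF1, hF2, hF3, fun u N M hN hM ts q hq => hnc u N M hN hM ts q hq⟩
    have hε : ∀ k, expo ℓ (fun j => if c j = i then (1:ℤ) else 0) k = 0 ∨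
        expo ℓ (fun j => if c j = i then (1:ℤ) else 0) k = 1 ∨
        expo ℓ (fun j => if c j = i then (1:ℤ) else 0) k = -1 := by
      intro k
      unfold expo
      beta_reduce
      split_ifs <;> simp
    have hdz : ∀ (y : ℝ) (ρ : ℕ → ℝ), (∀ k, k < ℓ → HasDerivAt (F k) (ρ k) y) →
        ∑ k ∈ Finset.range ℓ,
          ((expo ℓ (fun j => if c j = i then (1:ℤ) else 0) k : ℤ) : ℝ) * ρ k = 0 :=
      fun y ρ hρ => slip_zero θ ℓ _ F hsys hε y ρ hρ
    exact const_of_deriv ℓ F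
      (fun k => ((expo ℓ (fun j => if c j = i then (1:ℤ) else 0) k : ℤ) : ℝ)) ℓ hF3 hdz
  refine limit_of_const_n θ r ℓ hℓ B ?_ c σ hσ g hgB f t F h1 h2 htl htu hF4 hconst
  intro n i
  rw [hBτ]
  exact hA' n i

end Pool.Agent.H50.SL
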