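import Pool.Agent.H50.SL.Core
import Pool.Graph.R_seed8.Helper29.RotS7

/-!
# The slippery theorem for arbitrary elements of a free group
-/

set_option autoImplicit false

open CircleDeg1Lift Set Pool.Agent.Helper29.Rot

namespace Pool.Agent.H50.SL

variable {n : ℕ}

/-- the homomorphism to the integers which counts the generator `i` -/
def expHom (i : Fin n) : FreeGroup (Fin n) →* Multiplicative ℤ :=
  FreeGroup.lift (fun j => Multiplicative.ofAdd (if j = i then (1 : ℤ) else 0))

/-- the letter value -/
def lval (i : Fin n) (x : Fin n × Bool) : ℤ := if x.1 = i then (if x.2 then 1 else -1) else 0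

theorem expHom_mk (i : Fin n) (L : List (Fin n × Bool)) :
    Multiplicative.toAdd (expHom i (FreeGroup.mk L)) = (L.map (lval i)).sum := by
  induction L with
  | nil =>
    have : (FreeGroup.mk ([] : List (Fin n × Bool))) = 1 := rfl
    rw [this, map_one]; rfl
  | cons x L ih =>
    have e : FreeGroup.mk (x :: L) = FreeGroup.mk [x] * FreeGroup.mk L := by
      rw [FreeGroup.mul_mk]; rfl
    rw [e, map_mul, toAdd_mul, ih, List.map_cons, List.sum_cons]
    congr 1
    obtain ⟨j, b⟩ := x
    have h1 : FreeGroup.mk [(j, true)] = FreeGroup.of j := rfl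
    have h2 : FreeGroup.mk [(j, false)] = (FreeGroup.of j)⁻¹ := rfl
    cases b
    · rw [h2, map_inv, expHom, FreeGroup.lift_apply_of, toAdd_inv, toAdd_ofAdd, lval]
      split_ifs <;> simp_all
    · rw [h1, expHom, FreeGroup.lift_apply_of, toAdd_ofAdd, lval]
      split_ifs <;> simp_all

theorem expHom_word (i : Fin n) (w : FreeGroup (Fin n)) (d : Fin n × Bool) :
    P w.toWord.length (fun k => (w.toWord.reverse.getD k d).1)
      (fun k => if (w.toWord.reverse.getD k d).2 then 1 else -1) i =
      ((Multiplicative.toAdd (expHom i w) : ℤ) : ℝ) := by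
  have h1 : P w.toWord.length (fun k => (w.toWord.reverse.getD k d).1)
      (fun k => if (w.toWord.reverse.getD k d).2 then 1 else -1) i =
      ∑ k ∈ Finset.range w.toWord.reverse.length,
        (fun x : Fin n × Bool => ((lval i x : ℤ) : ℝ)) (w.toWord.reverse.getD k d) := by
    rw [P, List.length_reverse]
    refine Finset.sum_congr rfl fun k _ => ?_
    simp only [lval]
    split_ifs <;> simp
  rw [h1, sum_getD w.toWord.reverse d (fun x : Fin n × Bool => ((lval i x : ℤ) : ℝ)),
    List.map_reverse, List.sum_reverse]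
  have h2 := expHom_mk i w.toWord
  rw [FreeGroup.mk_toWord] at h2
  rw [h2]
  generalize w.toWord = L
  induction L with
  | nil => simp
  | cons x L ih => rw [List.map_cons, List.map_cons, List.sum_cons, List.sum_cons, ih]; push_cast; ring

theorem mk_prod (ρ : FreeGroup (Fin n) →* G) (L : List (Fin n × Bool)) :
    ρ (FreeGroup.mk L) = (L.map (fun x : Fin n × Bool =>
      ρ (FreeGroup.of x.1) ^ (if x.2 then 1 else -1 : ℤ))).prod := by
  induction L with
  | nil => exact map_one ρ
  | cons x L ih =>
    have e : FreeGroup.mk (x :: L) = FreeGroup.mk [x] * FreeGroup.mk L := by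
      rw [FreeGroup.mul_mk]; rfl
    rw [e, map_mul, ih, List.map_cons, List.prod_cons]
    congr 1
    obtain ⟨i, b⟩ := x
    have h1 : FreeGroup.mk [(i, true)] = FreeGroup.of i := rfl
    have h2 : FreeGroup.mk [(i, false)] = (FreeGroup.of i)⁻¹ := rfl
    cases b <;> simp [h1, h2]

theorem word_prod (ρ : FreeGroup (Fin n) →* G) (w : FreeGroup (Fin n)) (d : Fin n × Bool) :
    ρ w = prodSeq (fun k => ρ (FreeGroup.of (w.toWord.reverse.getD k d).1) ^
      (if (w.toWord.reverse.getD k d).2 then 1 else -1 : ℤ)) w.toWord.length := by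
  have h := j16444_list (fun x : Fin n × Bool =>
      ρ (FreeGroup.of x.1) ^ (if x.2 then 1 else -1 : ℤ)) d w.toWord.reverse
  rw [List.length_reverse, List.reverse_reverse] at h
  rw [h, ← mk_prod, FreeGroup.mk_toWord]

/-! ### the two sets -/

/-- rotation numbers of `w` when the generators have the rotation numbers `r i` -/
def setMax (w : FreeGroup (Fin n)) (r : Fin n → ℝ) : Set ℝ :=
  {t | ∃ ρ : FreeGroup (Fin n) →* G,
      (∀ i, translationNumber (ρ (FreeGroup.of i) : CircleDeg1Lift) = r i) ∧
      t = translationNumber (ρ w : CircleDeg1Lift)}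

/-- rotation numbers of `w` when the generators are conjugate to the rotations by `r i` -/
def setConj (w : FreeGroup (Fin n)) (r : Fin n → ℝ) : Set ℝ :=
  {t | ∃ ρ : FreeGroup (Fin n) →* G,
      (∀ i, IsConj (ρ (FreeGroup.of i)) (translate (Multiplicative.ofAdd (r i)))) ∧
      t = translationNumber (ρ w : CircleDeg1Lift)}

theorem word_bound_n (C : ℝ) (w : FreeGroup (Fin n)) : ∃ K : ℝ, ∀ ρ : FreeGroup (Fin n) →* G,
    (∀ i, |translationNumber (ρ (FreeGroup.of i) : CircleDeg1Lift)| ≤ C) →
    ∀ x : ℝ, |(ρ w : CircleDeg1Lift) x - x| ≤ K := by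
  have hgen : ∀ i : Fin n, ∀ ρ : FreeGroup (Fin n) →* G,
      (∀ i, |translationNumber (ρ (FreeGroup.of i) : CircleDeg1Lift)| ≤ C) →
      ∀ x : ℝ, |(ρ (FreeGroup.of i) : CircleDeg1Lift) x - x| ≤ C + 1 := by
    intro i ρ h x
    have b := unit_bound (ρ (FreeGroup.of i)) x
    linarith [h i]
  induction w using FreeGroup.induction_on with
  | C1 =>
    refine ⟨0, fun ρ _ x => ?_⟩
    simp
  | of i =>
    exact ⟨C + 1, fun ρ h x => hgen i ρ h x⟩
  | inv_of i _ =>
    refine ⟨C + 1, fun ρ h x => ?_⟩
    have h2 := hgen i ρ h (((ρ (FreeGroup.of i))⁻¹ : G) x)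
    rw [units_apply_inv_apply] at h2
    rw [map_inv, abs_sub_comm]
    exact h2
  | mul a b ha hb =>
    obtain ⟨K1, h1⟩ := ha
    obtain ⟨K2, h2⟩ := hb
    refine ⟨K1 + K2, fun ρ c x => ?_⟩
    rw [map_mul, Units.val_mul, mul_apply]
    have d1 := h1 ρ c ((ρ b : CircleDeg1Lift) x)
    have d2 := h2 ρ c x
    have e : (ρ a : CircleDeg1Lift) ((ρ b : CircleDeg1Lift) x) - x =
      ((ρ a : CircleDeg1Lift) ((ρ b : CircleDeg1Lift) x) - (ρ b : CircleDeg1Lift) x) +
        ((ρ b : CircleDeg1Lift) x - x) := by ring
    rw [e]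
    exact (abs_add_le _ _).trans (add_le_add d1 d2)

theorem abs_le_sum (r : Fin n → ℝ) (i : Fin n) : |r i| ≤ ∑ i, |r i| :=
  Finset.single_le_sum (f := fun i => |r i|) (fun _ _ => abs_nonneg _) (Finset.mem_univ i)

theorem setMax_bdd (w : FreeGroup (Fin n)) (r : Fin n → ℝ) : BddAbove (setMax w r) := by
  obtain ⟨K, hK⟩ := word_bound_n (∑ i, |r i|) w
  refine ⟨K, ?_⟩
  rintro _ ⟨ρ, h0, rfl⟩
  refine translationNumber_le_of_le_add _ fun x => ?_
  have := (abs_le.1 (hK ρ (fun i => by rw [h0 i]; exact abs_le_sum r i) x)).2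
  linarith

theorem setConj_sub (w : FreeGroup (Fin n)) (r : Fin n → ℝ) : setConj w r ⊆ setMax w r := by
  rintro t ⟨ρ, h, rfl⟩
  exact ⟨ρ, fun i => tau_of_conj (h i), rfl⟩

theorem setConj_bdd (w : FreeGroup (Fin n)) (r : Fin n → ℝ) : BddAbove (setConj w r) :=
  (setMax_bdd w r).mono (setConj_sub w r)

theorem setConj_nonempty (w : FreeGroup (Fin n)) (r : Fin n → ℝ) : (setConj w r).Nonempty := by
  refine ⟨_, FreeGroup.lift (fun i => translate (Multiplicative.ofAdd (r i))), ?_, rfl⟩
  intro i
  rw [FreeGroup.lift_apply_of]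

/-! ### approximation -/

/-- the perturbed representation -/
noncomputable def RR (cc : Fin n → G) (rr : Fin n → ℝ) : FreeGroup (Fin n) →* G :=
  FreeGroup.lift (fun i => (cc i)⁻¹ * translate (Multiplicative.ofAdd (rr i)) * cc i)

theorem RR_of (cc : Fin n → G) (rr : Fin n → ℝ) (i : Fin n) :
    RR cc rr (FreeGroup.of i) =
      (cc i)⁻¹ * translate (Multiplicative.ofAdd (rr i)) * cc i :=
  FreeGroup.lift_apply_of

theorem RR_cont (cc : Fin n → G) (v : FreeGroup (Fin n)) :
    Continuous fun p : (Fin n → ℝ) × ℝ => ((RR cc p.1 v : G) : CircleDeg1Lift) p.2 := by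
  have hi : ∀ i : Fin n, Continuous fun p : (Fin n → ℝ) × ℝ => p.1 i :=
    fun i => (continuous_apply i).comp continuous_fst
  induction v using FreeGroup.induction_on with
  | C1 =>
    simp only [map_one, Units.val_one, coe_one, id]
    exact continuous_snd
  | of i =>
    have h : ∀ p : (Fin n → ℝ) × ℝ, ((RR cc p.1 (FreeGroup.of i) : G) : CircleDeg1Lift) p.2 =
        ((cc i)⁻¹ : G) (p.1 i + (cc i : CircleDeg1Lift) p.2) := by
      intro p
      rw [RR_of, Units.val_mul, Units.val_mul, mul_apply, mul_apply, CircleDeg1Lift.translate_apply]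
    simp only [h]
    exact (ab_cont79 _).comp ((hi i).add ((ab_cont79 _).comp continuous_snd))
  | inv_of i _ =>
    have h : ∀ p : (Fin n → ℝ) × ℝ, ((RR cc p.1 (FreeGroup.of i)⁻¹ : G) : CircleDeg1Lift) p.2 =
        ((cc i)⁻¹ : G) (-(p.1 i) + (cc i : CircleDeg1Lift) p.2) := by
      intro p
      have e : RR cc p.1 (FreeGroup.of i)⁻¹ =
          (cc i)⁻¹ * translate (Multiplicative.ofAdd (-(p.1 i))) * cc i := by
        rw [map_inv, RR_of, ofAdd_neg, map_inv]
        group
      rw [e, Units.val_mul, Units.val_mul, mul_apply, mul_apply, CircleDeg1Lift.translate_apply]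
    simp only [h]
    exact (ab_cont79 _).comp ((hi i).neg.add ((ab_cont79 _).comp continuous_snd))
  | mul u v hu hv =>
    have h : ∀ p : (Fin n → ℝ) × ℝ, ((RR cc p.1 (u * v) : G) : CircleDeg1Lift) p.2 =
        ((RR cc p.1 u : G) : CircleDeg1Lift) (((RR cc p.1 v : G) : CircleDeg1Lift) p.2) := by
      intro p
      rw [map_mul, Units.val_mul, mul_apply]
    simp only [h]
    exact hu.comp (continuous_fst.prodMk hv)

theorem RR_cont0 (cc : Fin n → G) (v : FreeGroup (Fin n)) (x : ℝ) :
    Continuous fun rr : Fin n → ℝ => ((RR cc rr v : G) : CircleDeg1Lift) x := by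
  have h1 : Continuous fun rr : Fin n → ℝ => ((rr, x) : (Fin n → ℝ) × ℝ) := by fun_prop
  have h2 := (RR_cont cc v).comp h1
  exact h2

/-- for all `r'` near `r` there is a representation with generators conjugate to the rotations by
`r'` for which the rotation number of `w` is nearly the supremum -/
theorem approx_n (w : FreeGroup (Fin n)) (r : Fin n → ℝ) (θ : ℝ)
    (hsup : IsLUB (setConj w r) θ) (e : ℝ) (he : 0 < e) :
    ∀ᶠ r' : Fin n → ℝ in nhds r, ∃ ρ : FreeGroup (Fin n) →* G,
      (∀ i, IsConj (ρ (FreeGroup.of i)) (translate (Multiplicative.ofAdd (r' i)))) ∧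
      θ - e < translationNumber (ρ w : CircleDeg1Lift) := by
  obtain ⟨t, ⟨ρ0, hr, rfl⟩, ht, -⟩ := hsup.exists_between (show θ - e < θ by linarith)
  obtain ⟨q, hq1, hq2⟩ := exists_rat_btwn ht
  choose cc hcc using fun i => isConj_iff.1 (hr i)
  have hden : (0 : ℝ) < q.den := by exact_mod_cast q.den_pos
  have hqM : (q : ℝ) * q.den = q.num := by
    have := Rat.mul_den_eq_num q
    exact_mod_cast this
  have h0 : RR cc r = ρ0 := by
    apply FreeGroup.ext_hom
    intro i
    rw [RR_of, ← hcc i]
    group
  have hpow : ∀ ρ : FreeGroup (Fin n) →* G, translationNumber ((ρ (w ^ q.den) : G) : CircleDeg1Lift)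
      = q.den * translationNumber ((ρ w : G) : CircleDeg1Lift) := by
    intro ρ
    rw [map_pow, Units.val_pow_eq_pow_val, translationNumber_pow]
  have hM0 : ((q.num : ℤ) : ℝ) < ((RR cc r (w ^ q.den) : G) : CircleDeg1Lift) 0 := by
    rw [h0]
    have h1 : ((q.num : ℤ) : ℝ) < translationNumber ((ρ0 (w ^ q.den) : G) : CircleDeg1Lift) := by
      rw [hpow, ← hqM]
      nlinarith
    have h2 := lt_map_of_int_lt_translationNumber _ h1 0
    simpa using h2
  have hev : ∀ᶠ r' in nhds r,
      ((q.num : ℤ) : ℝ) < ((RR cc r' (w ^ q.den) : G) : CircleDeg1Lift) 0 :=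
    ((RR_cont0 cc (w ^ q.den) 0).tendsto r).eventually (Ioi_mem_nhds hM0)
  filter_upwards [hev] with r' hr'
  refine ⟨RR cc r', fun i => ?_, ?_⟩
  · rw [RR_of]
    exact isConj_iff.2 ⟨cc i, by group⟩
  · have h3 : ((q.num : ℤ) : ℝ) ≤ translationNumber ((RR cc r' (w ^ q.den) : G) : CircleDeg1Lift) := by
      by_contra hlt
      have h4 := map_lt_of_translationNumber_lt_int _ (not_le.1 hlt) 0
      rw [zero_add] at h4
      linarith
    rw [hpow, ← hqM] at h3
    have h5 : (q : ℝ) ≤ translationNumber ((RR cc r' w : G) : CircleDeg1Lift) := by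
      have : (q.den : ℝ) * q ≤ q.den * translationNumber ((RR cc r' w : G) : CircleDeg1Lift) := by
        linarith
      exact le_of_mul_le_mul_left this hden
    linarith

/-- the dichotomy: if there are `r'` arbitrarily close to `r` for which the supremum for `r` is not
reached, then the supremum for `r` is the abelian value -/
theorem slippery_n (w : FreeGroup (Fin n)) (r : Fin n → ℝ)
    (h : ∃ᶠ r' : Fin n → ℝ in nhds r, ∀ t ∈ setConj w r', t < sSup (setConj w r)) :
    sSup (setConj w r) = ∑ i, ((Multiplicative.toAdd (expHom i w) : ℤ) : ℝ) * r i := by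
  rcases Nat.eq_zero_or_pos w.toWord.length with h0 | h0
  · exfalso
    have hw : w = 1 := by
      rw [← FreeGroup.toWord_eq_nil_iff]
      exact List.length_eq_zero_iff.1 h0
    subst hw
    have e1 : ∀ ρ : FreeGroup (Fin n) →* G,
        translationNumber (ρ 1 : CircleDeg1Lift) = 0 := by
      intro ρ
      rw [map_one, Units.val_one, translationNumber_one]
    have e2 : sSup (setConj (1 : FreeGroup (Fin n)) r) = 0 := by
      have e3 : setConj (1 : FreeGroup (Fin n)) r = {0} := by
        apply Set.eq_singleton_iff_nonempty_unique_mem.2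
        refine ⟨setConj_nonempty _ _, ?_⟩
        rintro t ⟨ρ, _, rfl⟩
        exact e1 ρ
      rw [e3, csSup_singleton]
    obtain ⟨r', hr'⟩ := h.exists
    rw [e2] at hr'
    obtain ⟨t, ht⟩ := setConj_nonempty (1 : FreeGroup (Fin n)) r'
    have h1 := hr' t ht
    obtain ⟨ρ, _, rfl⟩ := ht
    rw [e1] at h1
    linarith
  · obtain ⟨d, -⟩ := List.exists_mem_of_length_pos h0
    have hlub := isLUB_csSup (setConj_nonempty w r) (setConj_bdd w r)
    have hcore := slip_core_n w.toWord.length h0 (fun k => (w.toWord.reverse.getD k d).1)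
      (fun k => if (w.toWord.reverse.getD k d).2 then 1 else -1)
      (fun k => by
        split_ifs
        · exact Or.inl rfl
        · exact Or.inr rfl) r (sSup (setConj w r))
      (by
        intro e he
        have hnear : ∀ᶠ r' : Fin n → ℝ in nhds r, ∀ i, |r' i - r i| ≤ e := by
          have : ∀ᶠ r' : Fin n → ℝ in nhds r, dist r' r < e := Metric.ball_mem_nhds r he
          filter_upwards [this] with r' hr' i
          rw [← Real.dist_eq]
          exact (dist_le_pi_dist r' r i).trans hr'.le
        obtain ⟨r', hr', h2, ρ, h3, h4⟩ :=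
          (h.and_eventually (hnear.and (approx_n w r _ hlub e he))).exists
        refine ⟨fun i => ρ (FreeGroup.of i),
          fun i => by rw [tau_of_conj (h3 i)]; exact h2 i, ?_, ?_⟩
        · rw [word_prod ρ w d] at h4
          exact h4
        · intro B hB
          apply hr'
          refine ⟨FreeGroup.lift B, fun i => ?_, ?_⟩
          · rw [FreeGroup.lift_apply_of]
            exact (hB i).symm.trans (h3 i)
          · rw [word_prod (FreeGroup.lift B) w d]
            simp only [FreeGroup.lift_apply_of])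
    rw [hcore]
    exact Finset.sum_congr rfl fun i _ => by rw [expHom_word]

/-- the representation by translations -/
noncomputable def TT (r : Fin n → ℝ) : FreeGroup (Fin n) →* G :=
  FreeGroup.lift (fun i => translate (Multiplicative.ofAdd (r i)))

theorem TT_apply (r : Fin n → ℝ) (w : FreeGroup (Fin n)) : TT r w =
    translate (Multiplicative.ofAdd (∑ i, ((Multiplicative.toAdd (expHom i w) : ℤ) : ℝ) * r i)) := by
  induction w using FreeGroup.induction_on with
  | C1 => simp
  | of j =>
    rw [TT, FreeGroup.lift_apply_of]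
    congr 2
    symm
    rw [Finset.sum_eq_single j]
    · simp [expHom]
    · intro i _ hij
      simp [expHom, Ne.symm hij]
    · simp
  | inv_of j hj =>
    rw [map_inv, hj, ← map_inv, ← ofAdd_neg]
    congr 2
    rw [← Finset.sum_neg_distrib]
    refine Finset.sum_congr rfl fun i _ => ?_
    rw [map_inv, toAdd_inv]
    push_cast
    ring
  | mul u v hu hv =>
    rw [map_mul, hu, hv, ← map_mul, ← ofAdd_add]
    congr 2
    rw [← Finset.sum_add_distrib]
    refine Finset.sum_congr rfl fun i _ => ?_
    rw [map_mul, toAdd_mul]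
    push_cast
    ring

theorem abel_mem (w : FreeGroup (Fin n)) (r : Fin n → ℝ) :
    (∑ i, ((Multiplicative.toAdd (expHom i w) : ℤ) : ℝ) * r i) ∈ setConj w r := by
  refine ⟨TT r, fun i => ?_, ?_⟩
  · rw [TT, FreeGroup.lift_apply_of]
  · rw [TT_apply, translationNumber_translate]

/-- the supremum `R(w, r-)` is a maximum -/
theorem setConj_greatest (w : FreeGroup (Fin n)) (r : Fin n → ℝ) :
    IsGreatest (setConj w r) (sSup (setConj w r)) := by
  refine ⟨?_, fun t ht => le_csSup (setConj_bdd w r) ht⟩
  by_contra hno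
  have h := slippery_n w r (by
    have : ∀ t ∈ setConj w r, t < sSup (setConj w r) := by
      intro t ht
      refine lt_of_le_of_ne (le_csSup (setConj_bdd w r) ht) ?_
      rintro rfl
      exact hno ht
    exact Filter.Frequently.filter_mono (f := pure r) (by
      rw [Filter.frequently_pure]; exact this) (pure_le_nhds r))
  rw [h] at hno
  exact hno (abel_mem w r)

/-- the supremum `R(w, r)` is a maximum -/
theorem setMax_greatest (w : FreeGroup (Fin n)) (r : Fin n → ℝ) :
    IsGreatest (setMax w r) (sSup (setMax w r)) := by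
  have hbd := setMax_bdd w r
  have hne : (setMax w r).Nonempty := (setConj_nonempty w r).mono (setConj_sub w r)
  refine ⟨?_, fun t ht => le_csSup hbd ht⟩
  by_contra hno
  have hlt : ∀ t ∈ setMax w r, t < sSup (setMax w r) := by
    intro t ht
    refine lt_of_le_of_ne (le_csSup hbd ht) ?_
    rintro rfl
    exact hno ht
  have habel : sSup (setMax w r) =
      ∑ i, ((Multiplicative.toAdd (expHom i w) : ℤ) : ℝ) * r i := by
    rcases Nat.eq_zero_or_pos w.toWord.length with h0 | h0
    · exfalso
      have hw : w = 1 := by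
        rw [← FreeGroup.toWord_eq_nil_iff]
        exact List.length_eq_zero_iff.1 h0
      subst hw
      obtain ⟨t, ht⟩ := hne
      have ht' := ht
      obtain ⟨ρ, _, rfl⟩ := ht
      have e3 : ∀ s ∈ setMax (1 : FreeGroup (Fin n)) r, s ≤
          translationNumber ((ρ 1 : G) : CircleDeg1Lift) := by
        rintro s ⟨ρ', _, rfl⟩
        rw [map_one, map_one]
      have := csSup_le ⟨_, ht'⟩ e3
      have := hlt _ ht'
      linarith
    · obtain ⟨d, -⟩ := List.exists_mem_of_length_pos h0
      have hlub := isLUB_csSup hne hbd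
      have hcore := slip_core_n w.toWord.length h0 (fun k => (w.toWord.reverse.getD k d).1)
        (fun k => if (w.toWord.reverse.getD k d).2 then 1 else -1)
        (fun k => by
          split_ifs
          · exact Or.inl rfl
          · exact Or.inr rfl) r (sSup (setMax w r))
        (by
          intro e he
          obtain ⟨t, ⟨ρ, hr, rfl⟩, ht, -⟩ :=
            hlub.exists_between (show sSup (setMax w r) - e < sSup (setMax w r) by linarith)
          refine ⟨fun i => ρ (FreeGroup.of i),
            fun i => by rw [hr i, sub_self, abs_zero]; exact he.le, ?_, ?_⟩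
          · rw [word_prod ρ w d] at ht
            exact ht
          · intro B hB
            apply hlt
            refine ⟨FreeGroup.lift B, fun i => ?_, ?_⟩
            · rw [FreeGroup.lift_apply_of, ← hr i]
              obtain ⟨u, hu⟩ := isConj_iff.1 (hB i)
              rw [← hu]
              exact (translationNumber_conj_eq u (ρ (FreeGroup.of i) : CircleDeg1Lift))
            · rw [word_prod (FreeGroup.lift B) w d]
              simp only [FreeGroup.lift_apply_of])
      rw [hcore]
      exact Finset.sum_congr rfl fun i _ => by rw [expHom_word]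
  rw [habel] at hno
  exact hno (setConj_sub w r (abel_mem w r))

end Pool.Agent.H50.SL
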